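import Mathlib
import Pool.Agent.W926.PS.Stm

namespace Pool.Agent.W515.PS.Conv

open Finset W926.PS

theorem mem {n : ℕ} (x : Fin 6 → Fin n) (i : Fin 6) : x i ∈ (univ.image x : Finset (Fin n)) :=
  Finset.mem_image_of_mem x (Finset.mem_univ i)

/-- the six points -/
abbrev X6 {n : ℕ} (x : Fin 6 → Fin n) : Finset (Fin n) := univ.image x

open Classical in
/-- the pattern of a relation -/
noncomputable def G {n : ℕ} (x : Fin 6 → Fin n) (R : X6 x → X6 x → Prop) :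
    Fin 6 → Fin 6 → Bool :=
  fun i k => decide (R ⟨x i, mem x i⟩ ⟨x k, mem x k⟩)

theorem G_inj {n : ℕ} (x : Fin 6 → Fin n) : Function.Injective (G x) := by
  intro R R' h
  funext a b
  obtain ⟨a, ha⟩ := a
  obtain ⟨b, hb⟩ := b
  obtain ⟨i, -, rfl⟩ := Finset.mem_image.1 ha
  obtain ⟨k, -, rfl⟩ := Finset.mem_image.1 hb
  have h1 := congrFun (congrFun h i) k
  simp only [G, decide_eq_decide] at h1
  exact propext h1

theorem G_ipat {n : ℕ} (x : Fin 6 → Fin n) (ρ : Equiv.Perm (Fin n)) :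
    ipat x (fun y => (ρ y : ℕ)) = G x (inducedOrder ρ (univ.image x)) := by
  funext i k
  simp only [G, ipat, inducedOrder, Fin.lt_def]

theorem conv : S_CONV := by
  intro n P x _
  rw [← Set.ncard_coe_finset, ← Set.ncard_image_of_injective _ (G_inj x)]
  congr 1
  ext g
  constructor
  · rintro ⟨R, ⟨ρ, hρ, rfl⟩, rfl⟩
    exact Finset.mem_coe.2 (Finset.mem_image.2 ⟨ρ, Finset.mem_coe.1 hρ, G_ipat x ρ⟩)
  · intro hg
    obtain ⟨ρ, hρ, rfl⟩ := Finset.mem_image.1 (Finset.mem_coe.1 hg)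
    exact ⟨_, ⟨ρ, Finset.mem_coe.2 hρ, rfl⟩, (G_ipat x ρ).symm⟩

end Pool.Agent.W515.PS.Conv
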